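import Pool.Agent.W964.Nadic.Lattice

/-!
# Few lattices have short vectors
-/

set_option autoImplicit false

open Finset

namespace Pool.Agent.W964.Nadic

/-- the lattice points `(f, g)` with `|f| ≤ Y` and `1 ≤ g ≤ Y` -/
noncomputable def box (M : ℕ) (Y : ℕ) (α : ℤ) : Finset (ℤ × ℤ) :=
  (Icc (-(Y : ℤ)) Y ×ˢ Icc 1 (Y : ℤ)).filter (fun p => (M : ℤ) ∣ p.2 * α - p.1)

theorem div_minNorm_le_card (M : ℕ) (hM : 0 < M) (α : ℤ) :
    Nat.sqrt M / minNorm M α ≤ (box M (Nat.sqrt M) α).card := by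
  obtain ⟨f, g, hne, hd, hf, hg⟩ := minNorm_spec M hM α
  set m := minNorm M α with hm
  set Y := Nat.sqrt M with hY
  have hm0 : 0 < m := minNorm_pos M hM α
  have hmY : m ≤ Y := minNorm_le_sqrt M hM α
  have hYM : Y * Y ≤ M := Nat.sqrt_le M
  by_cases hg0 : g = 0
  · -- then `M = 1`
    have hf0 : f ≠ 0 := by
      rcases hne with h | h
      · exact h
      · exact absurd hg0 h
    have h1 : (M : ℤ) ∣ f := by
      rw [hg0, zero_mul, zero_sub] at hd
      exact (dvd_neg).1 hd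
    have h2 : M ≤ f.natAbs := by
      have := Nat.le_of_dvd (Int.natAbs_pos.2 hf0) (Int.natAbs_dvd_natAbs.2 h1)
      simpa using this
    have h3 : M ≤ Y := h2.trans (hf.trans hmY)
    have hM1 : M = 1 := by nlinarith
    have hY1 : Y = 1 := by rw [hY, hM1]; rfl
    have hm1 : m = 1 := by omega
    rw [hm1, hY1, Nat.div_one]
    have h4 : ((0, 1) : ℤ × ℤ) ∈ box M 1 α := by
      rw [box, mem_filter, mem_product, mem_Icc, mem_Icc, hM1]
      simp
    exact card_pos.2 ⟨_, h4⟩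
  · -- multiples of the shortest vector
    obtain ⟨f', g', hg', hd', hf', hgm'⟩ : ∃ f' g' : ℤ, 0 < g' ∧ (M : ℤ) ∣ g' * α - f' ∧
        f'.natAbs ≤ m ∧ g'.natAbs ≤ m := by
      rcases lt_or_gt_of_ne hg0 with h | h
      · refine ⟨-f, -g, by omega, ?_, by simpa using hf, by simpa using hg⟩
        have : -g * α - -f = -(g * α - f) := by ring
        rw [this]
        exact (dvd_neg).2 hd
      · exact ⟨f, g, h, hd, hf, hg⟩
    have h1 : Y / m = (Icc 1 (Y / m)).card := by simp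
    rw [h1]
    apply card_le_card_of_injOn (fun k : ℕ => ((k : ℤ) * f', (k : ℤ) * g'))
    · intro k hk
      have hk' := mem_Icc.1 (mem_coe.1 hk)
      have hkY : k * m ≤ Y := by
        calc k * m ≤ (Y / m) * m := Nat.mul_le_mul_right _ hk'.2
          _ ≤ Y := Nat.div_mul_le_self _ _
      have hkf : (k * f'.natAbs : ℕ) ≤ Y := (Nat.mul_le_mul_left k hf').trans hkY
      have hkg : (k * g'.natAbs : ℕ) ≤ Y := (Nat.mul_le_mul_left k hgm').trans hkY
      have hkf' : |(k : ℤ) * f'| ≤ Y := by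
        rw [abs_mul, Int.abs_eq_natAbs f', Nat.abs_cast]
        exact_mod_cast hkf
      have hkg' : |(k : ℤ) * g'| ≤ Y := by
        rw [abs_mul, Int.abs_eq_natAbs g', Nat.abs_cast]
        exact_mod_cast hkg
      have hk1 : (1 : ℤ) ≤ k := by exact_mod_cast hk'.1
      apply mem_coe.2
      rw [box, mem_filter, mem_product, mem_Icc, mem_Icc]
      refine ⟨⟨⟨(abs_le.1 hkf').1, (abs_le.1 hkf').2⟩, ?_, (abs_le.1 hkg').2⟩, ?_⟩
      · show (1 : ℤ) ≤ (k : ℤ) * g'
        nlinarith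
      · show (M : ℤ) ∣ (k : ℤ) * g' * α - (k : ℤ) * f'
        have : (k : ℤ) * g' * α - (k : ℤ) * f' = k * (g' * α - f') := by ring
        rw [this]
        exact Dvd.dvd.mul_left hd' _
    · intro k _ k' _ heq
      have h2 : (k : ℤ) * g' = k' * g' := (Prod.mk.injEq _ _ _ _ ▸ heq).2
      have h3 := mul_right_cancel₀ hg'.ne' h2
      exact_mod_cast h3

theorem card_fixed (M : ℕ) (hM : 0 < M) (Y : ℕ) (g : ℤ) (hg1 : 1 ≤ g) (hgY : g ≤ Y) :
    ((range M ×ˢ Icc (-(Y : ℤ)) Y).filter (fun p : ℕ × ℤ => (M : ℤ) ∣ g * p.1 - p.2)).card ≤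
      3 * Y := by
  have : NeZero M := ⟨hM.ne'⟩
  have h1 := card_pairs_le (A := ZMod M) (E := ℤ) (Int.castAddHom (ZMod M))
    ZMod.intCast_surjective (AddMonoidHom.mulLeft (g : ZMod M)) (Icc (-(Y : ℤ)) Y) (Ico 0 g)
    (Icc (-(Y : ℤ)) (Y + g - 1))
    (by
      intro x
      refine ⟨x % g, ?_, ((x / g : ℤ) : ZMod M), ?_⟩
      · rw [mem_Ico]
        exact ⟨Int.emod_nonneg _ (by omega), Int.emod_lt_of_pos _ (by omega)⟩
      · simp only [AddMonoidHom.coe_mulLeft, Int.coe_castAddHom]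
        rw [← Int.cast_mul]
        congr 1
        have := Int.emod_add_mul_ediv x g
        linarith)
    (by
      intro y hy f hf
      rw [mem_Ico] at hy
      rw [mem_Icc] at hf ⊢
      omega)
  have h2 : (Icc (-(Y : ℤ)) (Y + g - 1)).card ≤ 3 * Y := by
    rw [Int.card_Icc]
    omega
  refine le_trans ?_ (h1.trans h2)
  apply card_le_card_of_injOn (fun p : ℕ × ℤ => ((p.1 : ZMod M), p.2))
  · intro p hp
    have hp' := mem_filter.1 (mem_coe.1 hp)
    have hp'' := mem_product.1 hp'.1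
    apply mem_coe.2
    rw [mem_filter, mem_product]
    refine ⟨⟨mem_univ _, hp''.2⟩, ?_⟩
    simp only [AddMonoidHom.coe_mulLeft, Int.coe_castAddHom]
    have h3 := (ZMod.intCast_zmod_eq_zero_iff_dvd (g * p.1 - p.2) M).2 hp'.2
    push_cast at h3
    exact sub_eq_zero.1 h3
  · intro p hp p' hp' heq
    have h3 := mem_range.1 (mem_product.1 (mem_filter.1 (mem_coe.1 hp)).1).1
    have h4 := mem_range.1 (mem_product.1 (mem_filter.1 (mem_coe.1 hp')).1).1
    have h5 : (p.1 : ZMod M) = (p'.1 : ZMod M) := (Prod.mk.injEq _ _ _ _ ▸ heq).1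
    have h6 : p.2 = p'.2 := (Prod.mk.injEq _ _ _ _ ▸ heq).2
    rw [ZMod.natCast_eq_natCast_iff'] at h5
    rw [Nat.mod_eq_of_lt h3, Nat.mod_eq_of_lt h4] at h5
    exact Prod.ext h5 h6

theorem sum_card_box_le (M : ℕ) (hM : 0 < M) (Y : ℕ) :
    ∑ α ∈ range M, (box M Y (α : ℤ)).card ≤ 3 * (Y * Y) := by
  have h1 : ∀ α : ℕ, (box M Y (α : ℤ)).card =
      ∑ g ∈ Icc 1 (Y : ℤ), ((Icc (-(Y : ℤ)) Y).filter (fun f => (M : ℤ) ∣ g * α - f)).card := by
    intro α
    rw [box, card_filter, sum_product_right]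
    apply sum_congr rfl
    intro g _
    rw [card_filter]
  have h2 : ∀ g : ℤ, ∑ α ∈ range M, ((Icc (-(Y : ℤ)) Y).filter (fun f => (M : ℤ) ∣ g * α - f)).card =
      ((range M ×ˢ Icc (-(Y : ℤ)) Y).filter (fun p : ℕ × ℤ => (M : ℤ) ∣ g * p.1 - p.2)).card := by
    intro g
    rw [card_filter, sum_product]
    apply sum_congr rfl
    intro α _
    rw [card_filter]
  rw [sum_congr rfl (fun α _ => h1 α), sum_comm]
  calc ∑ g ∈ Icc 1 (Y : ℤ), ∑ α ∈ range M,
        ((Icc (-(Y : ℤ)) Y).filter (fun f => (M : ℤ) ∣ g * α - f)).card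
      ≤ ∑ g ∈ Icc 1 (Y : ℤ), 3 * Y := by
        apply sum_le_sum
        intro g hg
        rw [h2]
        exact card_fixed M hM Y g (mem_Icc.1 hg).1 (mem_Icc.1 hg).2
    _ = 3 * (Y * Y) := by
        rw [sum_const, Int.card_Icc, smul_eq_mul]
        have : ((Y : ℤ) + 1 - 1).toNat = Y := by omega
        rw [this]
        ring

/-- The sum over all residues `α` of `⌊√M / m(α)⌋` is at most `3 M`. -/
theorem sum_div_minNorm_le (M : ℕ) (hM : 0 < M) :
    ∑ α ∈ range M, Nat.sqrt M / minNorm M (α : ℤ) ≤ 3 * M :=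
  calc ∑ α ∈ range M, Nat.sqrt M / minNorm M (α : ℤ)
      ≤ ∑ α ∈ range M, (box M (Nat.sqrt M) (α : ℤ)).card :=
        sum_le_sum fun α _ => div_minNorm_le_card M hM α
    _ ≤ 3 * (Nat.sqrt M * Nat.sqrt M) := sum_card_box_le M hM _
    _ ≤ 3 * M := Nat.mul_le_mul_left _ (Nat.sqrt_le M)

end Pool.Agent.W964.Nadic
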