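import Mathlib

/-!
# The `N`-adic complexity of finite sequences

Definitions for `MP_68df70_lc`.
-/

set_option autoImplicit false

open Finset

namespace Pool.Agent.W964.Nadic

/-- The integer `a_0 + a_1 N + ... + a_(n-1) N^(n-1)`: the residue modulo `N^n` of the `N`-adic
integer `α = a_0 + a_1 N + a_2 N^2 + ...` of the sequence `a`. -/
def prefixValue (N : ℕ) (a : ℕ → Fin N) (n : ℕ) : ℤ :=
  ∑ i ∈ range n, ((a i : ℕ) : ℤ) * (N : ℤ) ^ i

/-- The `N`-adic integer `α` of the sequence `a` is the rational number `f / g` (in lowest terms,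
`g > 0`): `g α = f` in `ℤ_N`, which means congruence modulo `N^n` for all `n`. -/
def IsFraction (N : ℕ) (a : ℕ → Fin N) (f g : ℤ) : Prop :=
  0 < g ∧ IsCoprime f g ∧ ∀ n : ℕ, (N : ℤ) ^ n ∣ g * prefixValue N a n - f

/-- The `N`-adic complexity of the finite sequence `w`: the minimum (infimum) of
`log_N max(|f|, |g|)` over all infinite extensions `b` of `w` whose `N`-adic integer is a rational
number `f / g`. (Extensions with irrational `N`-adic integer have infinite complexity.) -/
noncomputable def complexity (N n : ℕ) (w : Fin n → Fin N) : ℝ :=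
  sInf {x : ℝ | ∃ (b : ℕ → Fin N) (f g : ℤ), (∀ i : Fin n, b i = w i) ∧ IsFraction N b f g ∧
    x = Real.logb N (max |f| |g| : ℤ)}

/-- The average `E_n^fin` of the `N`-adic complexity over all `N^n` sequences of length `n`. -/
noncomputable def average (N n : ℕ) : ℝ :=
  (∑ w : Fin n → Fin N, complexity N n w) / (N : ℝ) ^ n

end Pool.Agent.W964.Nadic
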