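import Pool.Agent.W964.Nadic.Defs

/-!
# Extensions of finite words with a given rational value
-/

set_option autoImplicit false

open Finset

namespace Pool.Agent.W964.Nadic

theorem prefixValue_succ (N : ℕ) (a : ℕ → Fin N) (n : ℕ) :
    prefixValue N a (n + 1) = prefixValue N a n + ((a n : ℕ) : ℤ) * (N : ℤ) ^ n := by
  simp [prefixValue, sum_range_succ]

theorem prefixValue_congr (N : ℕ) (a b : ℕ → Fin N) (n : ℕ) (h : ∀ i, i < n → a i = b i) :
    prefixValue N a n = prefixValue N b n := by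
  unfold prefixValue
  apply sum_congr rfl
  intro i hi
  rw [h i (mem_range.1 hi)]

/-- The value of a finite word. -/
def wordValue {N n : ℕ} (w : Fin n → Fin N) : ℤ := ∑ i : Fin n, ((w i : ℕ) : ℤ) * (N : ℤ) ^ (i : ℕ)

theorem prefixValue_eq_wordValue {N n : ℕ} (b : ℕ → Fin N) (w : Fin n → Fin N)
    (h : ∀ i : Fin n, b i = w i) : prefixValue N b n = wordValue w := by
  unfold prefixValue wordValue
  rw [← Fin.sum_univ_eq_sum_range (fun i => ((b i : ℕ) : ℤ) * (N : ℤ) ^ i)]
  apply sum_congr rfl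
  intro i _
  rw [h i]

theorem coprime_of_isFraction {N : ℕ} {b : ℕ → Fin N} {f g : ℤ}
    (h : IsFraction N b f g) : IsCoprime g (N : ℤ) := by
  obtain ⟨_, hco, hd⟩ := h
  have h1 := hd 1
  rw [pow_one] at h1
  obtain ⟨k, hk⟩ := h1
  obtain ⟨u, v, huv⟩ := hco
  refine ⟨v + u * prefixValue N b 1, -(u * k), ?_⟩
  have : f = g * prefixValue N b 1 - N * k := by linarith
  rw [this] at huv
  linarith [huv]

/-- The digit `s` with `c ≡ g s` modulo `N`. -/
theorem exists_digit {N : ℕ} (hN : 0 < N) {g : ℤ} (hg : IsCoprime g (N : ℤ)) (c : ℤ) :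
    ∃ s : Fin N, (N : ℤ) ∣ c - g * ((s : ℕ) : ℤ) := by
  obtain ⟨u, v, huv⟩ := hg
  have hN' : (0 : ℤ) < N := by exact_mod_cast hN
  have h1 : 0 ≤ (u * c) % N := Int.emod_nonneg _ hN'.ne'
  have h2 : (u * c) % N < N := Int.emod_lt_of_pos _ hN'
  refine ⟨⟨((u * c) % N).toNat, by omega⟩, ?_⟩
  have h3 : (((⟨((u * c) % N).toNat, by omega⟩ : Fin N) : ℕ) : ℤ) = (u * c) % N :=
    Int.toNat_of_nonneg h1
  rw [h3]
  have h4 : (u * c) % N = u * c - N * (u * c / N) := by
    have := Int.emod_add_mul_ediv (u * c) N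
    linarith
  rw [h4]
  refine ⟨v * c + g * (u * c / N), ?_⟩
  have : c = (u * g + v * N) * c := by rw [huv, one_mul]
  linear_combination this

/-- Given a finite word `w` of value `α` modulo `N^n`, coprime `f, g` with `g > 0` coprime to `N`
and `N^n ∣ g α - f`, there is an infinite extension of `w` with value `f / g`. -/
theorem exists_extension {N n : ℕ} (hN : 0 < N) (w : Fin n → Fin N) {f g : ℤ} (hg : 0 < g)
    (hfg : IsCoprime f g) (hgN : IsCoprime g (N : ℤ)) (hd : (N : ℤ) ^ n ∣ g * wordValue w - f) :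
    ∃ b : ℕ → Fin N, (∀ i : Fin n, b i = w i) ∧ IsFraction N b f g := by
  classical
  choose dig hdig using fun c : ℤ => exists_digit hN hgN c
  -- digits, given the remainder `c`; `rem (k)` satisfies `f - g * (prefix) = N^(n+k) * rem k`
  obtain ⟨c0, hc0⟩ := hd
  let rem : ℕ → ℤ := fun k => Nat.rec (-c0) (fun _ c => (c - g * ((dig c : ℕ) : ℤ)) / N) k
  have hrem : ∀ k, rem (k + 1) = (rem k - g * ((dig (rem k) : ℕ) : ℤ)) / N := fun k => rfl
  have hrem' : ∀ k, (N : ℤ) * rem (k + 1) = rem k - g * ((dig (rem k) : ℕ) : ℤ) := by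
    intro k
    rw [hrem]
    exact Int.mul_ediv_cancel' (hdig (rem k))
  let b : ℕ → Fin N := fun i => if h : i < n then w ⟨i, h⟩ else dig (rem (i - n))
  have hbw : ∀ i : Fin n, b i = w i := by
    intro i
    simp [b]
  have hbn : ∀ k, b (n + k) = dig (rem k) := by
    intro k
    simp [b]
  have hpre : prefixValue N b n = wordValue w := prefixValue_eq_wordValue b w hbw
  have hkey : ∀ k, g * prefixValue N b (n + k) - f = -((N : ℤ) ^ (n + k) * rem k) := by
    intro k
    induction k with
    | zero =>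
      rw [add_zero, hpre, hc0]
      show _ = -((N : ℤ) ^ n * (-c0))
      ring
    | succ k ih =>
      rw [← add_assoc, prefixValue_succ, hbn, pow_succ]
      have h1 := hrem' k
      linear_combination ih + (N : ℤ) ^ (n + k) * h1
  refine ⟨b, hbw, hg, hfg, ?_⟩
  intro m
  rcases le_or_gt n m with h | h
  · obtain ⟨k, rfl⟩ := Nat.exists_eq_add_of_le h
    rw [hkey]
    exact (dvd_mul_right _ _).neg_right
  · -- shorter prefixes
    have h1 : ∀ j m, (N : ℤ) ^ m ∣ prefixValue N b (m + j) - prefixValue N b m := by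
      intro j m
      induction j with
      | zero => simp
      | succ j ih =>
        rw [← add_assoc, prefixValue_succ]
        have h2 : (N : ℤ) ^ m ∣ ((b (m + j) : ℕ) : ℤ) * (N : ℤ) ^ (m + j) :=
          Dvd.dvd.mul_left (pow_dvd_pow _ (Nat.le_add_right _ _)) _
        have h3 := dvd_add ih h2
        have h4 : prefixValue N b (m + j) - prefixValue N b m +
            ((b (m + j) : ℕ) : ℤ) * (N : ℤ) ^ (m + j) =
            prefixValue N b (m + j) + ((b (m + j) : ℕ) : ℤ) * (N : ℤ) ^ (m + j) -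
            prefixValue N b m := by ring
        rwa [h4] at h3
    obtain ⟨j, hj⟩ := Nat.exists_eq_add_of_le h.le
    have h2 := h1 j m
    rw [← hj] at h2
    have h3 : (N : ℤ) ^ m ∣ g * prefixValue N b n - f := by
      rw [hpre, hc0]
      exact Dvd.dvd.mul_right (pow_dvd_pow _ h.le) _
    have h4 := dvd_sub h3 (Dvd.dvd.mul_left h2 g)
    have h5 : g * prefixValue N b n - f - g * (prefixValue N b n - prefixValue N b m) =
        g * prefixValue N b m - f := by ring
    rwa [h5] at h4

end Pool.Agent.W964.Nadic
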