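import Mathlib

/-!
# A counting lemma for endomorphisms of finite abelian groups
-/

set_option autoImplicit false

open Finset

namespace Pool.Agent.W964.Nadic

/-- For an endomorphism `φ` of a finite abelian group `A`, a surjection `q : E → A` and finite
subsets `F`, `G`, `H` of `E` such that `G` represents all cosets of the preimage of the image of
`φ` and `G + F ⊆ H`, the number of pairs `(a, f)` with `f ∈ F` and `φ a = q f` is at most `|H|`. -/
theorem card_pairs_le {A E : Type*} [AddCommGroup A] [Fintype A] [DecidableEq A] [AddCommGroup E]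
    [DecidableEq E] (q : E →+ A) (hq : Function.Surjective q) (φ : A →+ A) (F G H : Finset E)
    (hG : ∀ x : E, ∃ y ∈ G, ∃ a : A, φ a = q (x - y))
    (hH : ∀ y ∈ G, ∀ f ∈ F, y + f ∈ H) :
    ((univ ×ˢ F).filter (fun p : A × E => φ p.1 = q p.2)).card ≤ H.card := by
  classical
  -- fibres
  set F' := F.filter (fun f => q f ∈ φ.range) with hF'
  have hfib : ∀ f ∈ F', (univ.filter (fun a : A => φ a = q f)).card = Nat.card φ.ker := by
    intro f hf
    obtain ⟨a0, ha0⟩ := (mem_filter.1 hf).2
    have h1 : (univ.filter (fun a : A => φ a = q f)).card = Fintype.card {a : A // φ a = q f} := by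
      rw [Fintype.card_subtype]
    rw [h1, Nat.card_eq_fintype_card]
    apply Fintype.card_congr
    refine ⟨fun a => ⟨a.1 - a0, ?_⟩, fun a => ⟨a.1 + a0, ?_⟩, ?_, ?_⟩
    · rw [AddMonoidHom.mem_ker, map_sub, a.2, ha0, sub_self]
    · rw [map_add, ha0, (AddMonoidHom.mem_ker).1 a.2, zero_add]
    · intro a
      simp
    · intro a
      simp
  have hcount : ((univ ×ˢ F).filter (fun p : A × E => φ p.1 = q p.2)).card =
      F'.card * Nat.card φ.ker := by
    have h1 : ((univ ×ˢ F).filter (fun p : A × E => φ p.1 = q p.2)).card =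
        ∑ f ∈ F, (univ.filter (fun a : A => φ a = q f)).card := by
      rw [card_filter, sum_product_right]
      apply sum_congr rfl
      intro f _
      rw [card_filter]
    rw [h1]
    have h2 : ∑ f ∈ F, (univ.filter (fun a : A => φ a = q f)).card =
        ∑ f ∈ F', (univ.filter (fun a : A => φ a = q f)).card := by
      symm
      apply sum_subset (filter_subset _ _)
      intro f hf hf'
      rw [card_eq_zero, filter_eq_empty_iff]
      intro a _ ha
      exact hf' (mem_filter.2 ⟨hf, ⟨a, ha⟩⟩)
    rw [h2, sum_congr rfl hfib, sum_const, smul_eq_mul]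
  rw [hcount]
  -- kernel and cokernel
  have hker : Nat.card φ.ker = Nat.card (A ⧸ φ.range) := by
    have h1 : Nat.card A = Nat.card (A ⧸ φ.ker) * Nat.card φ.ker :=
      AddSubgroup.card_eq_card_quotient_mul_card_addSubgroup φ.ker
    have h2 : Nat.card A = Nat.card (A ⧸ φ.range) * Nat.card φ.range :=
      AddSubgroup.card_eq_card_quotient_mul_card_addSubgroup φ.range
    have h3 : Nat.card (A ⧸ φ.ker) = Nat.card φ.range :=
      Nat.card_congr (QuotientAddGroup.quotientKerEquivRange φ).toEquiv
    have h4 : 0 < Nat.card φ.range := Nat.card_pos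
    rw [h1, h3, mul_comm] at h2
    exact Nat.eq_of_mul_eq_mul_right h4 h2
  rw [hker]
  -- representatives
  have hrep : ∀ c : A ⧸ φ.range, ∃ y ∈ G, (QuotientAddGroup.mk (q y) : A ⧸ φ.range) = c := by
    intro c
    obtain ⟨a, rfl⟩ := QuotientAddGroup.mk_surjective c
    obtain ⟨x, rfl⟩ := hq a
    obtain ⟨y, hy, b, hb⟩ := hG x
    refine ⟨y, hy, ?_⟩
    rw [QuotientAddGroup.eq]
    refine ⟨b, ?_⟩
    rw [hb, map_sub]
    abel
  choose y hyG hy using hrep
  have : Fintype (A ⧸ φ.range) := Fintype.ofFinite _
  rw [Nat.card_eq_fintype_card, mul_comm, ← card_univ, ← card_product]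
  apply card_le_card_of_injOn (fun p : (A ⧸ φ.range) × E => y p.1 + p.2)
  · intro p hp
    have hp' := mem_product.1 (mem_coe.1 hp)
    exact mem_coe.2 (hH _ (hyG _) _ (mem_filter.1 hp'.2).1)
  · intro p hp p' hp' heq
    have h1 := (mem_filter.1 (mem_product.1 (mem_coe.1 hp)).2).2
    have h2 := (mem_filter.1 (mem_product.1 (mem_coe.1 hp')).2).2
    have heq' : y p.1 + p.2 = y p'.1 + p'.2 := heq
    have h3 : p.1 = p'.1 := by
      rw [← hy p.1, ← hy p'.1, QuotientAddGroup.eq]
      have h4 : -q (y p.1) + q (y p'.1) = q p.2 - q p'.2 := by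
        have := congrArg q heq'
        rw [map_add, map_add] at this
        have h5 : q (y p'.1) = q (y p.1) + q p.2 - q p'.2 := by
          rw [this]
          abel
        rw [h5]
        abel
      rw [h4]
      exact AddSubgroup.sub_mem _ h1 h2
    refine Prod.ext h3 ?_
    rw [h3] at heq'
    exact add_left_cancel heq'

end Pool.Agent.W964.Nadic
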