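import Pool.Agent.W964.Nadic.GroupCount

/-!
# The lattice of the pairs `(f, g)` with `f ≡ g α` modulo `M`
-/

set_option autoImplicit false

open Finset

namespace Pool.Agent.W964.Nadic

/-- The maximum norm of the shortest nonzero vector of the lattice `{(f, g) : M ∣ g α - f}`. -/
noncomputable def minNorm (M : ℕ) (α : ℤ) : ℕ :=
  sInf {k : ℕ | ∃ f g : ℤ, (f ≠ 0 ∨ g ≠ 0) ∧ (M : ℤ) ∣ g * α - f ∧ f.natAbs ≤ k ∧ g.natAbs ≤ k}

theorem minNorm_spec (M : ℕ) (hM : 0 < M) (α : ℤ) :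
    ∃ f g : ℤ, (f ≠ 0 ∨ g ≠ 0) ∧ (M : ℤ) ∣ g * α - f ∧ f.natAbs ≤ minNorm M α ∧
      g.natAbs ≤ minNorm M α := by
  have h : {k : ℕ | ∃ f g : ℤ, (f ≠ 0 ∨ g ≠ 0) ∧ (M : ℤ) ∣ g * α - f ∧ f.natAbs ≤ k ∧
      g.natAbs ≤ k}.Nonempty := by
    refine ⟨M, M, 0, Or.inl (by exact_mod_cast hM.ne'), ?_, by simp, by simp⟩
    simp
  exact Nat.sInf_mem h

theorem minNorm_le {M : ℕ} {α : ℤ} {f g : ℤ} {k : ℕ} (h : f ≠ 0 ∨ g ≠ 0)
    (hd : (M : ℤ) ∣ g * α - f) (hf : f.natAbs ≤ k) (hg : g.natAbs ≤ k) : minNorm M α ≤ k :=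
  Nat.sInf_le ⟨f, g, h, hd, hf, hg⟩

theorem minNorm_pos (M : ℕ) (hM : 0 < M) (α : ℤ) : 0 < minNorm M α := by
  obtain ⟨f, g, h, -, hf, hg⟩ := minNorm_spec M hM α
  rcases h with h | h
  · exact lt_of_lt_of_le (Int.natAbs_pos.2 h) hf
  · exact lt_of_lt_of_le (Int.natAbs_pos.2 h) hg

/-- Thue's lemma. -/
theorem minNorm_le_sqrt (M : ℕ) (hM : 0 < M) (α : ℤ) : minNorm M α ≤ Nat.sqrt M := by
  set k := Nat.sqrt M with hk
  have hcard : M < (k + 1) * (k + 1) := Nat.lt_succ_sqrt M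
  let S : Finset (ℕ × ℕ) := range (k + 1) ×ˢ range (k + 1)
  let T : Finset ℤ := Finset.Ico 0 (M : ℤ)
  have hM' : (0 : ℤ) < M := by exact_mod_cast hM
  have hmap : ∀ p ∈ S, ((p.1 : ℤ) * α - p.2) % M ∈ T := by
    intro p _
    rw [mem_Ico]
    exact ⟨Int.emod_nonneg _ hM'.ne', Int.emod_lt_of_pos _ hM'⟩
  have hlt : T.card < S.card := by
    simp only [T, S, Int.card_Ico, card_product, card_range]
    simpa using hcard
  obtain ⟨p, hp, q, hq, hpq, heq⟩ := exists_ne_map_eq_of_card_lt_of_maps_to hlt hmap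
  have hp' := mem_product.1 hp
  have hq' := mem_product.1 hq
  rw [mem_range, mem_range] at hp' hq'
  apply minNorm_le (f := (p.2 : ℤ) - q.2) (g := (p.1 : ℤ) - q.1)
  · by_contra h
    push Not at h
    apply hpq
    refine Prod.ext ?_ ?_
    · have := h.2
      omega
    · have := h.1
      omega
  · have h1 := Int.emod_emod_of_dvd
    have h2 : (M : ℤ) ∣ ((p.1 : ℤ) * α - p.2) - ((q.1 : ℤ) * α - q.2) :=
      Int.ModEq.dvd (Int.ModEq.symm heq)
    have h3 : ((p.1 : ℤ) - q.1) * α - ((p.2 : ℤ) - q.2) =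
      ((p.1 : ℤ) * α - p.2) - ((q.1 : ℤ) * α - q.2) := by ring
    rw [h3]
    exact h2
  · omega
  · omega

theorem minNorm_sq_le (M : ℕ) (hM : 0 < M) (α : ℤ) : minNorm M α * minNorm M α ≤ M :=
  (Nat.mul_le_mul (minNorm_le_sqrt M hM α) (minNorm_le_sqrt M hM α)).trans (Nat.sqrt_le M)

/-- A reduced basis of the lattice. -/
theorem exists_basis (M : ℕ) (hM : 0 < M) (α : ℤ) :
    ∃ f₁ g₁ f₂ g₂ : ℤ, (M : ℤ) ∣ g₁ * α - f₁ ∧ (M : ℤ) ∣ g₂ * α - f₂ ∧ IsCoprime g₂ g₁ ∧
      |f₁| ≤ minNorm M α ∧ |g₁| ≤ minNorm M α ∧ |f₂| * minNorm M α ≤ 2 * M ∧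
      |g₂| * minNorm M α ≤ 2 * M := by
  obtain ⟨f₁, g₁, hne, ⟨k₁, hk₁⟩, hf, hg⟩ := minNorm_spec M hM α
  set m := minNorm M α with hm
  have hm0 : 0 < m := minNorm_pos M hM α
  have hsq : (m : ℤ) * m ≤ M := by exact_mod_cast minNorm_sq_le M hM α
  have hM' : (0 : ℤ) < M := by exact_mod_cast hM
  -- `k₁` and `g₁` are coprime
  have hco : IsCoprime k₁ g₁ := by
    rw [Int.isCoprime_iff_gcd_eq_one]
    by_contra hd
    set e := Int.gcd k₁ g₁ with he
    have he1 : (e : ℤ) ∣ k₁ := Int.gcd_dvd_left _ _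
    have he2 : (e : ℤ) ∣ g₁ := Int.gcd_dvd_right _ _
    obtain ⟨k', hk'⟩ := he1
    obtain ⟨g', hg'⟩ := he2
    have he0 : e ≠ 0 := by
      intro h0
      rw [h0, Nat.cast_zero, zero_mul] at hk' hg'
      rw [hk', hg'] at hk₁
      have : f₁ = 0 := by linarith
      rcases hne with h | h
      · exact h this
      · exact h hg'
    have he2' : 2 ≤ e := by omega
    have hf' : f₁ = e * (g' * α - M * k') := by
      rw [hk', hg'] at hk₁
      linarith
    have hnew : m ≤ m / 2 := by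
      apply minNorm_le (f := g' * α - M * k') (g := g')
      · rcases hne with h | h
        · left
          intro h0
          rw [h0, mul_zero] at hf'
          exact h hf'
        · right
          intro h0
          rw [h0, mul_zero] at hg'
          exact h hg'
      · exact ⟨k', by ring⟩
      · rw [hf', Int.natAbs_mul, Int.natAbs_natCast] at hf
        rw [Nat.le_div_iff_mul_le (by norm_num)]
        nlinarith [Nat.zero_le (g' * α - M * k').natAbs]
      · rw [hg', Int.natAbs_mul, Int.natAbs_natCast] at hg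
        rw [Nat.le_div_iff_mul_le (by norm_num)]
        nlinarith [Nat.zero_le g'.natAbs]
    omega
  obtain ⟨a, b, hab⟩ := hco
  -- a * k₁ + b * g₁ = 1
  have hdet : ∀ k₂ g₂ : ℤ, k₂ * g₁ - k₁ * g₂ = 1 →
      f₁ * g₂ - (g₂ * α - M * k₂) * g₁ = M := by
    intro k₂ g₂ h
    have h1 : f₁ = g₁ * α - M * k₁ := by linarith
    rw [h1]
    linear_combination (M : ℤ) * h
  have hf' : |f₁| ≤ m := by
    rw [Int.abs_eq_natAbs]
    exact_mod_cast hf
  have hg' : |g₁| ≤ m := by
    rw [Int.abs_eq_natAbs]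
    exact_mod_cast hg
  have hmax : |f₁| = m ∨ |g₁| = m := by
    by_contra hcon
    push Not at hcon
    have h1 : f₁.natAbs ≤ m - 1 := by
      have := hcon.1
      rw [Int.abs_eq_natAbs] at this
      have : f₁.natAbs ≠ m := by exact_mod_cast this
      omega
    have h2 : g₁.natAbs ≤ m - 1 := by
      have := hcon.2
      rw [Int.abs_eq_natAbs] at this
      have : g₁.natAbs ≠ m := by exact_mod_cast this
      omega
    have := minNorm_le (M := M) (α := α) hne ⟨k₁, hk₁⟩ h1 h2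
    omega
  have hm0' : (0 : ℤ) < m := by exact_mod_cast hm0
  rcases hmax with hmax | hmax
  · -- reduce the first coordinate
    set q := (-a * α - M * b) / f₁ with hq
    have hf10 : f₁ ≠ 0 := by
      intro h0
      rw [h0, abs_zero] at hmax
      omega
    refine ⟨f₁, g₁, (-a * α - M * b) - q * f₁, -a - q * g₁, ⟨k₁, hk₁⟩, ⟨b - q * k₁, ?_⟩, ?_,
      hf', hg', ?_, ?_⟩
    · linear_combination (-q) * hk₁
    · exact ⟨-k₁, b - q * k₁, by linear_combination hab⟩
    · have h1 : (-a * α - M * b) - q * f₁ = (-a * α - M * b) % f₁ := by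
        have := Int.emod_add_mul_ediv (-a * α - M * b) f₁
        linarith
      have h2 : |(-a * α - M * b) % f₁| ≤ m := by
        rw [abs_of_nonneg (Int.emod_nonneg _ hf10), ← hmax]
        exact (Int.emod_lt_abs _ hf10).le
      rw [h1]
      nlinarith [abs_nonneg ((-a * α - M * b) % f₁)]
    · have h1 : (-a * α - M * b) - q * f₁ = (-a * α - M * b) % f₁ := by
        have := Int.emod_add_mul_ediv (-a * α - M * b) f₁
        linarith
      have h2 : |(-a * α - M * b) % f₁| ≤ m := by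
        rw [abs_of_nonneg (Int.emod_nonneg _ hf10), ← hmax]
        exact (Int.emod_lt_abs _ hf10).le
      have h3 := hdet (b - q * k₁) (-a - q * g₁) (by linear_combination hab)
      have h4 : (-a - q * g₁) * α - M * (b - q * k₁) = (-a * α - M * b) - q * f₁ := by
        linear_combination (-q) * hk₁
      rw [h4, h1] at h3
      have h5 : |-a - q * g₁| * m = |M + (-a * α - M * b) % f₁ * g₁| := by
        rw [← hmax, ← abs_mul]
        congr 1
        linarith
      rw [h5]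
      calc |(M : ℤ) + (-a * α - M * b) % f₁ * g₁|
          ≤ |(M : ℤ)| + |(-a * α - M * b) % f₁ * g₁| := abs_add_le _ _
        _ = M + |(-a * α - M * b) % f₁| * |g₁| := by rw [abs_mul, abs_of_pos hM']
        _ ≤ M + m * m := by
            have := mul_le_mul h2 hg' (abs_nonneg _) hm0'.le
            linarith
        _ ≤ 2 * M := by linarith
  · -- reduce the second coordinate
    set q := (-a) / g₁ with hq
    have hg10 : g₁ ≠ 0 := by
      intro h0
      rw [h0, abs_zero] at hmax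
      omega
    refine ⟨f₁, g₁, (-a * α - M * b) - q * f₁, -a - q * g₁, ⟨k₁, hk₁⟩, ⟨b - q * k₁, ?_⟩, ?_,
      hf', hg', ?_, ?_⟩
    · linear_combination (-q) * hk₁
    · exact ⟨-k₁, b - q * k₁, by linear_combination hab⟩
    · have h1 : -a - q * g₁ = (-a) % g₁ := by
        have := Int.emod_add_mul_ediv (-a) g₁
        linarith
      have h2 : |(-a) % g₁| ≤ m := by
        rw [abs_of_nonneg (Int.emod_nonneg _ hg10), ← hmax]
        exact (Int.emod_lt_abs _ hg10).le
      have h3 := hdet (b - q * k₁) (-a - q * g₁) (by linear_combination hab)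
      have h4 : (-a - q * g₁) * α - M * (b - q * k₁) = (-a * α - M * b) - q * f₁ := by
        linear_combination (-q) * hk₁
      rw [h4] at h3
      have h5 : |(-a * α - M * b) - q * f₁| * m = |f₁ * ((-a) % g₁) - M| := by
        rw [← hmax, ← abs_mul]
        congr 1
        rw [← h1]
        linarith
      rw [h5]
      calc |f₁ * ((-a) % g₁) - (M : ℤ)|
          ≤ |f₁ * ((-a) % g₁)| + |(M : ℤ)| := abs_sub _ _
        _ = |f₁| * |(-a) % g₁| + M := by rw [abs_mul, abs_of_pos hM']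
        _ ≤ m * m + M := by
            have := mul_le_mul hf' h2 (abs_nonneg _) hm0'.le
            linarith
        _ ≤ 2 * M := by linarith
    · have h1 : -a - q * g₁ = (-a) % g₁ := by
        have := Int.emod_add_mul_ediv (-a) g₁
        linarith
      have h2 : |(-a) % g₁| ≤ m := by
        rw [abs_of_nonneg (Int.emod_nonneg _ hg10), ← hmax]
        exact (Int.emod_lt_abs _ hg10).le
      rw [h1]
      nlinarith [abs_nonneg ((-a) % g₁)]

/-- Some `a + x b` with `0 ≤ x ≤ N` is coprime to `N`, if `a` and `b` are coprime. -/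
theorem exists_coprime_add_mul {N : ℕ} (hN : 0 < N) {a b : ℤ} (hab : IsCoprime a b) :
    ∃ x : ℕ, x ≤ N ∧ IsCoprime (a + x * b) (N : ℤ) := by
  classical
  let P : Finset ℕ := N.primeFactors.filter (fun p => ¬ (p : ℤ) ∣ a)
  refine ⟨∏ p ∈ P, p, ?_, ?_⟩
  · apply Nat.le_of_dvd hN
    exact (prod_dvd_prod_of_subset _ _ _ (filter_subset _ _)).trans (Nat.prod_primeFactors_dvd N)
  · rw [Int.isCoprime_iff_gcd_eq_one]
    by_contra hne
    obtain ⟨p, hp, hpd⟩ := Nat.exists_prime_and_dvd hne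
    have h1 : (p : ℤ) ∣ a + ((∏ p ∈ P, p : ℕ) : ℤ) * b :=
      dvd_trans (Int.natCast_dvd_natCast.2 hpd) (Int.gcd_dvd_left _ _)
    have h2 : (p : ℤ) ∣ (N : ℤ) :=
      dvd_trans (Int.natCast_dvd_natCast.2 hpd) (Int.gcd_dvd_right _ _)
    have h2' : p ∣ N := Int.natCast_dvd_natCast.1 h2
    have hpP : Prime (p : ℤ) := Nat.prime_iff_prime_int.1 hp
    by_cases hpa : (p : ℤ) ∣ a
    · have h3 : (p : ℤ) ∣ ((∏ p ∈ P, p : ℕ) : ℤ) * b := (dvd_add_right hpa).1 h1
      rcases hpP.dvd_or_dvd h3 with h4 | h4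
      · have h5 : p ∣ ∏ p ∈ P, p := Int.natCast_dvd_natCast.1 h4
        obtain ⟨r, hr, hpr⟩ := (hp.prime.dvd_finsetProd_iff _).1 h5
        have hr' := mem_filter.1 hr
        have hrp := Nat.prime_of_mem_primeFactors hr'.1
        have : p = r := (Nat.prime_dvd_prime_iff_eq hp hrp).1 hpr
        exact hr'.2 (this ▸ hpa)
      · have h6 := hab.isUnit_of_dvd' hpa h4
        exact hpP.not_isUnit h6
    · have h3 : p ∈ P := by
        rw [mem_filter]
        exact ⟨Nat.mem_primeFactors.2 ⟨hp, h2', hN.ne'⟩, hpa⟩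
      have h4 : (p : ℤ) ∣ ((∏ p ∈ P, p : ℕ) : ℤ) * b :=
        Dvd.dvd.mul_right (Int.natCast_dvd_natCast.2 (dvd_prod_of_mem _ h3)) _
      exact hpa ((dvd_add_left h4).1 h1)

end Pool.Agent.W964.Nadic
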