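import Pool.Agent.W964.Nadic.Count
import Pool.Agent.W964.Nadic.Digits

/-!
# The average `N`-adic complexity of finite sequences is `n / 2 + O(1)`
-/

set_option autoImplicit false

open Finset

namespace Pool.Agent.W964.Nadic

theorem one_le_max {f g : ℤ} (hg : g ≠ 0) : (1 : ℤ) ≤ max |f| |g| :=
  le_max_of_le_right (Int.one_le_abs hg)

theorem logb_nonneg' {N : ℕ} (hN : 2 ≤ N) {k : ℤ} (hk : 1 ≤ k) : 0 ≤ Real.logb N (k : ℝ) :=
  Real.logb_nonneg (by exact_mod_cast (by omega : 1 < N)) (by exact_mod_cast hk)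

theorem bddBelow_set {N n : ℕ} (hN : 2 ≤ N) (w : Fin n → Fin N) :
    BddBelow {x : ℝ | ∃ (b : ℕ → Fin N) (f g : ℤ), (∀ i : Fin n, b i = w i) ∧
      IsFraction N b f g ∧ x = Real.logb N (max |f| |g| : ℤ)} := by
  refine ⟨0, ?_⟩
  rintro x ⟨b, f, g, -, hfr, rfl⟩
  exact logb_nonneg' hN (one_le_max hfr.1.ne')

theorem complexity_le_aux {N n : ℕ} (hN : 2 ≤ N) (w : Fin n → Fin N) {f g : ℤ} (hg : 0 < g)
    (hfg : IsCoprime f g) (hgN : IsCoprime g (N : ℤ)) (hd : (N : ℤ) ^ n ∣ g * wordValue w - f) :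
    complexity N n w ≤ Real.logb N (max |f| |g| : ℤ) := by
  obtain ⟨b, hb, hfr⟩ := exists_extension (by omega) w hg hfg hgN hd
  exact csInf_le (bddBelow_set hN w) ⟨b, f, g, hb, hfr, rfl⟩

theorem complexity_le_pos {N n : ℕ} (hN : 2 ≤ N) (w : Fin n → Fin N) {f g : ℤ} (hg : 0 < g)
    (hgN : IsCoprime g (N : ℤ)) (hd : (N : ℤ) ^ n ∣ g * wordValue w - f) :
    complexity N n w ≤ Real.logb N (max |f| |g| : ℤ) := by
  set e : ℤ := (Int.gcd f g : ℤ) with he
  have he0 : 0 < e := by
    have : 0 < Int.gcd f g := Int.gcd_pos_of_ne_zero_right _ hg.ne'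
    rw [he]
    exact_mod_cast this
  obtain ⟨f', hf'⟩ : e ∣ f := Int.gcd_dvd_left _ _
  obtain ⟨g', hg'⟩ : e ∣ g := Int.gcd_dvd_right _ _
  have hco : IsCoprime f' g' := by
    have h1 : e = f * Int.gcdA f g + g * Int.gcdB f g := Int.gcd_eq_gcd_ab f g
    refine ⟨Int.gcdA f g, Int.gcdB f g, ?_⟩
    have h2 : e * (Int.gcdA f g * f' + Int.gcdB f g * g') = e * 1 := by
      calc e * (Int.gcdA f g * f' + Int.gcdB f g * g')
          = (e * f') * Int.gcdA f g + (e * g') * Int.gcdB f g := by ring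
        _ = f * Int.gcdA f g + g * Int.gcdB f g := by rw [← hf', ← hg']
        _ = e * 1 := by rw [← h1, mul_one]
    exact mul_left_cancel₀ he0.ne' h2
  have hg'0 : 0 < g' := by
    rw [hg'] at hg
    exact pos_of_mul_pos_right hg he0.le
  have heN : IsCoprime e (N : ℤ) := by
    rw [hg'] at hgN
    exact hgN.of_mul_left_left
  have hgN' : IsCoprime g' (N : ℤ) := by
    rw [hg'] at hgN
    exact hgN.of_mul_left_right
  have hd' : (N : ℤ) ^ n ∣ g' * wordValue w - f' := by
    have h1 : g * wordValue w - f = e * (g' * wordValue w - f') := by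
      rw [hf', hg']
      have : e * g' * wordValue w - e * f' = e * (g' * wordValue w - f') := by ring
      rw [← hf', ← hg'] at this ⊢
      exact this
    rw [h1] at hd
    exact (heN.symm.pow_left).dvd_of_dvd_mul_left hd
  refine (complexity_le_aux hN w hg'0 hco hgN' hd').trans ?_
  apply Real.logb_le_logb_of_le (by exact_mod_cast (by omega : 1 < N))
  · have := one_le_max (f := f') hg'0.ne'
    exact_mod_cast (by omega : (0 : ℤ) < max |f'| |g'|)
  · have h1 : |f'| ≤ |f| := by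
      rw [hf', abs_mul, abs_of_pos he0]
      nlinarith [abs_nonneg f']
    have h2 : |g'| ≤ |g| := by
      rw [hg', abs_mul, abs_of_pos he0]
      nlinarith [abs_nonneg g']
    exact_mod_cast max_le_max h1 h2

theorem ne_zero_of_coprime {N : ℕ} (hN : 2 ≤ N) {g : ℤ} (hgN : IsCoprime g (N : ℤ)) : g ≠ 0 := by
  rintro rfl
  rw [isCoprime_zero_left, Int.isUnit_iff] at hgN
  omega

theorem complexity_le {N n : ℕ} (hN : 2 ≤ N) (w : Fin n → Fin N) {f g : ℤ}
    (hgN : IsCoprime g (N : ℤ)) (hd : (N : ℤ) ^ n ∣ g * wordValue w - f) :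
    complexity N n w ≤ Real.logb N (max |f| |g| : ℤ) := by
  rcases lt_or_gt_of_ne (ne_zero_of_coprime hN hgN) with h | h
  · have h1 := complexity_le_pos hN w (f := -f) (g := -g) (by omega) hgN.neg_left (by
      have : -g * wordValue w - -f = -(g * wordValue w - f) := by ring
      rw [this]
      exact (dvd_neg).2 hd)
    rwa [abs_neg, abs_neg] at h1
  · exact complexity_le_pos hN w h hgN hd

theorem le_complexity {N n : ℕ} (hN : 2 ≤ N) (w : Fin n → Fin N) (y : ℝ)
    (h : ∀ f g : ℤ, 0 < g → (N : ℤ) ^ n ∣ g * wordValue w - f →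
      y ≤ Real.logb N (max |f| |g| : ℤ)) : y ≤ complexity N n w := by
  apply le_csInf
  · obtain ⟨b, hb, hfr⟩ := exists_extension (N := N) (by omega) w (f := wordValue w) (g := 1)
      one_pos isCoprime_one_right isCoprime_one_left (by simp)
    exact ⟨_, b, _, _, hb, hfr, rfl⟩
  · rintro x ⟨b, f, g, hb, hfr, rfl⟩
    apply h f g hfr.1
    rw [← prefixValue_eq_wordValue b w hb]
    exact hfr.2.2 n

/-- The lower bound: the logarithm of the shortest vector. -/
theorem logb_minNorm_le {N n : ℕ} (hN : 2 ≤ N) (w : Fin n → Fin N) :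
    Real.logb N (minNorm (N ^ n) (wordValue w)) ≤ complexity N n w := by
  have hM : 0 < N ^ n := pow_pos (by omega) n
  apply le_complexity hN w
  intro f g hg hd
  apply Real.logb_le_logb_of_le (by exact_mod_cast (by omega : 1 < N))
  · exact_mod_cast minNorm_pos _ hM _
  · have h1 : minNorm (N ^ n) (wordValue w) ≤ max f.natAbs g.natAbs := by
      apply minNorm_le (f := f) (g := g) (Or.inr hg.ne')
      · push_cast
        exact hd
      · exact le_max_left _ _
      · exact le_max_right _ _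
    have h2 : ((max f.natAbs g.natAbs : ℕ) : ℤ) = max |f| |g| := by
      push_cast
      rfl
    have h3 : (minNorm (N ^ n) (wordValue w) : ℤ) ≤ max |f| |g| := by
      rw [← h2]
      exact_mod_cast h1
    exact_mod_cast h3

theorem complexity_le_of_vector {N n : ℕ} (hN : 2 ≤ N) (w : Fin n → Fin N) {f g : ℤ} (c : ℝ)
    (hgN : IsCoprime g (N : ℤ)) (hd : (N : ℤ) ^ n ∣ g * wordValue w - f)
    (h : (max |f| |g| : ℤ) * (minNorm (N ^ n) (wordValue w) : ℝ) ≤ c * (N : ℝ) ^ n) :
    complexity N n w ≤ Real.logb N c + n - Real.logb N (minNorm (N ^ n) (wordValue w)) := by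
  have hN0 : (0 : ℝ) < N := by exact_mod_cast (by omega : 0 < N)
  have hN1 : (1 : ℝ) < N := by exact_mod_cast (by omega : 1 < N)
  have hM : 0 < N ^ n := pow_pos (by omega) n
  have hm : (0 : ℝ) < minNorm (N ^ n) (wordValue w) := by exact_mod_cast minNorm_pos _ hM _
  have hmax : (1 : ℝ) ≤ (max |f| |g| : ℤ) := by
    exact_mod_cast one_le_max (f := f) (ne_zero_of_coprime hN hgN)
  have hc : 0 < c := by
    have h1 : 0 < c * (N : ℝ) ^ n := lt_of_lt_of_le (by positivity) h
    exact pos_of_mul_pos_left h1 (by positivity)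
  refine (complexity_le hN w hgN hd).trans ?_
  have h2 : ((max |f| |g| : ℤ) : ℝ) ≤ c * (N : ℝ) ^ n / minNorm (N ^ n) (wordValue w) := by
    rw [le_div_iff₀ hm]
    exact h
  have h3 : Real.logb N (c * (N : ℝ) ^ n / minNorm (N ^ n) (wordValue w)) =
      Real.logb N c + n - Real.logb N (minNorm (N ^ n) (wordValue w)) := by
    rw [Real.logb_div (by positivity) hm.ne', Real.logb_mul hc.ne' (by positivity),
      Real.logb_pow, Real.logb_self_eq_one hN1, mul_one]
  rw [← h3]
  exact Real.logb_le_logb_of_le hN1 (by linarith) h2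

/-- The upper bound for general `N`. -/
theorem complexity_le_general {N n : ℕ} (hN : 2 ≤ N) (w : Fin n → Fin N) :
    complexity N n w ≤ Real.logb N (N + 2) + n -
      Real.logb N (minNorm (N ^ n) (wordValue w)) := by
  have hM : 0 < N ^ n := pow_pos (by omega) n
  obtain ⟨f₁, g₁, f₂, g₂, hd1, hd2, hco, hf1, hg1, hf2, hg2⟩ :=
    exists_basis (N ^ n) hM (wordValue w)
  obtain ⟨x, hx, hxco⟩ := exists_coprime_add_mul (N := N) (by omega) hco
  have hsq := minNorm_sq_le (N ^ n) hM (wordValue w)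
  set m := minNorm (N ^ n) (wordValue w) with hm
  have hsq' : (m : ℤ) * m ≤ (N : ℤ) ^ n := by exact_mod_cast hsq
  have hx' : (x : ℤ) ≤ N := by exact_mod_cast hx
  have hx0 : (0 : ℤ) ≤ x := by positivity
  have hm0 : (0 : ℤ) ≤ m := by positivity
  push_cast at hd1 hd2 hf2 hg2
  have key : ∀ a b : ℤ, |a| ≤ m → |b| * m ≤ 2 * (N : ℤ) ^ n →
      |b + x * a| * m ≤ (N + 2) * (N : ℤ) ^ n := by
    intro a b ha hb
    have h1 : |b + x * a| ≤ |b| + x * |a| := by
      refine (abs_add_le _ _).trans ?_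
      rw [abs_mul, abs_of_nonneg hx0]
    have h2 : (x : ℤ) * |a| * m ≤ N * (N : ℤ) ^ n := by
      calc (x : ℤ) * |a| * m ≤ x * m * m := by gcongr
        _ = x * (m * m) := by ring
        _ ≤ N * (N : ℤ) ^ n := by gcongr
    nlinarith
  apply complexity_le_of_vector hN w (f := f₂ + x * f₁) (g := g₂ + x * g₁) _ hxco
  · have h1 : (g₂ + x * g₁) * wordValue w - (f₂ + x * f₁) =
        (g₂ * wordValue w - f₂) + x * (g₁ * wordValue w - f₁) := by ring
    rw [h1]
    exact dvd_add hd2 (Dvd.dvd.mul_left hd1 _)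
  · have h1 := key f₁ f₂ hf1 hf2
    have h2 := key g₁ g₂ hg1 hg2
    have h3 : max |f₂ + x * f₁| |g₂ + x * g₁| * m ≤ (N + 2) * (N : ℤ) ^ n := by
      rcases max_choice |f₂ + x * f₁| |g₂ + x * g₁| with h | h <;> rw [h]
      · exact h1
      · exact h2
    exact_mod_cast h3

/-- The upper bound for prime powers `N`. -/
theorem complexity_le_primePow {N n : ℕ} (hN : IsPrimePow N) (w : Fin n → Fin N) :
    complexity N n w ≤ Real.logb N 2 + n - Real.logb N (minNorm (N ^ n) (wordValue w)) := by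
  have hN2 : 2 ≤ N := hN.two_le
  have hM : 0 < N ^ n := pow_pos (by omega) n
  obtain ⟨f₁, g₁, f₂, g₂, hd1, hd2, hco, hf1, hg1, hf2, hg2⟩ :=
    exists_basis (N ^ n) hM (wordValue w)
  have hsq := minNorm_sq_le (N ^ n) hM (wordValue w)
  set m := minNorm (N ^ n) (wordValue w) with hm
  have hsq' : (m : ℤ) * m ≤ (N : ℤ) ^ n := by exact_mod_cast hsq
  have hm0 : (0 : ℤ) ≤ m := by positivity
  push_cast at hd1 hd2 hf2 hg2
  obtain ⟨p, k, hp, hk, rfl⟩ := (isPrimePow_nat_iff N).1 hN
  have hpp : Prime (p : ℤ) := Nat.prime_iff_prime_int.1 hp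
  have hcop : ∀ g : ℤ, ¬ (p : ℤ) ∣ g → IsCoprime g ((p ^ k : ℕ) : ℤ) := by
    intro g hg
    push_cast
    exact ((hpp.irreducible.coprime_iff_not_dvd).2 hg).symm.pow_right
  have hcase : IsCoprime g₂ ((p ^ k : ℕ) : ℤ) ∨ IsCoprime g₁ ((p ^ k : ℕ) : ℤ) := by
    by_cases h2 : (p : ℤ) ∣ g₂
    · right
      apply hcop
      intro h1
      exact hpp.not_isUnit (hco.isUnit_of_dvd' h2 h1)
    · left
      exact hcop _ h2
  rcases hcase with h | h
  · apply complexity_le_of_vector hN2 w (f := f₂) (g := g₂) 2 h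
    · push_cast at hd2 ⊢
      exact hd2
    · have h3 : max |f₂| |g₂| * m ≤ 2 * ((p : ℤ) ^ k) ^ n := by
        push_cast at hf2 hg2
        rcases max_choice |f₂| |g₂| with h | h <;> rw [h]
        · exact hf2
        · exact hg2
      exact_mod_cast h3
  · apply complexity_le_of_vector hN2 w (f := f₁) (g := g₁) 2 h
    · push_cast at hd1 ⊢
      exact hd1
    · have h3 : max |f₁| |g₁| * m ≤ 2 * ((p : ℤ) ^ k) ^ n := by
        push_cast at hsq'
        have h4 : max |f₁| |g₁| ≤ m := max_le hf1 hg1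
        nlinarith
      exact_mod_cast h3

/-! ### Averages -/

theorem sum_words {N n : ℕ} (F : ℤ → ℝ) :
    ∑ w : Fin n → Fin N, F (wordValue w) = ∑ α ∈ range (N ^ n), F (α : ℤ) := by
  rw [← Fin.sum_univ_eq_sum_range (fun α : ℕ => F (α : ℤ))]
  apply Fintype.sum_equiv finFunctionFinEquiv
  intro w
  congr 1
  rw [wordValue, finFunctionFinEquiv_apply]
  push_cast
  rfl

/-- The defect of the shortest vector. -/
theorem defect_le {N n : ℕ} (hN : 2 ≤ N) (α : ℤ) :
    (n : ℝ) / 2 - Real.logb N (minNorm (N ^ n) α) ≤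
      ((Nat.sqrt (N ^ n) / minNorm (N ^ n) α : ℕ) : ℝ) / Real.logb 2 N := by
  have hN0 : (0 : ℝ) < N := by exact_mod_cast (by omega : 0 < N)
  have hN1 : (1 : ℝ) < N := by exact_mod_cast (by omega : 1 < N)
  have hM : 0 < N ^ n := pow_pos (by omega) n
  set m := minNorm (N ^ n) α with hm
  set q := Nat.sqrt (N ^ n) / m with hq
  have hm0 : 0 < m := minNorm_pos _ hM _
  have hm' : (0 : ℝ) < m := by exact_mod_cast hm0
  have hlog : 0 < Real.logb 2 N := Real.logb_pos (by norm_num) hN1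
  rw [le_div_iff₀ hlog]
  -- `√M < (q + 1) m`
  have h1 : Nat.sqrt (N ^ n) < (q + 1) * m := by
    have := Nat.lt_mul_div_succ (Nat.sqrt (N ^ n)) hm0
    rw [← hq] at this
    linarith
  have h2 : (N : ℝ) ^ n ≤ ((q + 1 : ℝ) * m) ^ 2 := by
    have h3 : N ^ n < (Nat.sqrt (N ^ n) + 1) * (Nat.sqrt (N ^ n) + 1) := Nat.lt_succ_sqrt _
    have h4 : N ^ n ≤ ((q + 1) * m) ^ 2 := by
      rw [sq]
      exact h3.le.trans (Nat.mul_le_mul h1 h1)
    exact_mod_cast h4
  have h3 : Real.logb N m = Real.logb 2 m / Real.logb 2 N := by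
    rw [Real.logb, Real.logb, Real.logb]
    have : Real.log 2 ≠ 0 := (Real.log_pos (by norm_num)).ne'
    have : Real.log N ≠ 0 := (Real.log_pos hN1).ne'
    field_simp
  have h4 : (n : ℝ) * Real.logb 2 N ≤ 2 * (Real.logb 2 (q + 1) + Real.logb 2 m) := by
    have h5 := Real.logb_le_logb_of_le (b := 2) (by norm_num) (by positivity) h2
    rw [Real.logb_pow, Real.logb_pow, Real.logb_mul (by positivity) hm'.ne'] at h5
    exact_mod_cast h5
  have h5 : Real.logb 2 (q + 1) ≤ q := by
    rw [Real.logb_le_iff_le_rpow (by norm_num) (by positivity), Real.rpow_natCast]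
    have : q + 1 ≤ 2 ^ q := Nat.lt_two_pow_self
    exact_mod_cast this
  have h6 : ((n : ℝ) / 2 - Real.logb N m) * Real.logb 2 N =
      n * Real.logb 2 N / 2 - Real.logb 2 m := by
    rw [h3]
    field_simp
  rw [h6]
  linarith

theorem sum_defect_le {N n : ℕ} (hN : 2 ≤ N) :
    ∑ w : Fin n → Fin N, ((n : ℝ) / 2 - Real.logb N (minNorm (N ^ n) (wordValue w))) ≤
      3 / Real.logb 2 N * (N : ℝ) ^ n := by
  have hN1 : (1 : ℝ) < N := by exact_mod_cast (by omega : 1 < N)
  have hlog : 0 < Real.logb 2 N := Real.logb_pos (by norm_num) hN1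
  have hM : 0 < N ^ n := pow_pos (by omega) n
  rw [sum_words (fun α => (n : ℝ) / 2 - Real.logb N (minNorm (N ^ n) α))]
  calc ∑ α ∈ range (N ^ n), ((n : ℝ) / 2 - Real.logb N (minNorm (N ^ n) (α : ℤ)))
      ≤ ∑ α ∈ range (N ^ n),
        ((Nat.sqrt (N ^ n) / minNorm (N ^ n) (α : ℤ) : ℕ) : ℝ) / Real.logb 2 N :=
        sum_le_sum fun α _ => defect_le hN _
    _ = ((∑ α ∈ range (N ^ n), Nat.sqrt (N ^ n) / minNorm (N ^ n) (α : ℤ) : ℕ) : ℝ) /
        Real.logb 2 N := by
        rw [← sum_div]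
        push_cast
        rfl
    _ ≤ ((3 * N ^ n : ℕ) : ℝ) / Real.logb 2 N := by
        have := sum_div_minNorm_le (N ^ n) hM
        gcongr
    _ = 3 / Real.logb 2 N * (N : ℝ) ^ n := by
        push_cast
        ring

theorem card_words (N n : ℕ) : (∑ _w : Fin n → Fin N, (1 : ℝ)) = (N : ℝ) ^ n := by
  simp

theorem average_lower {N n : ℕ} (hN : 2 ≤ N) :
    (n : ℝ) / 2 - 3 / Real.logb 2 N ≤ average N n := by
  have hN0 : (0 : ℝ) < N := by exact_mod_cast (by omega : 0 < N)
  rw [average, le_div_iff₀ (by positivity)]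
  have h1 : ∑ w : Fin n → Fin N, ((n : ℝ) / 2 - complexity N n w) ≤
      3 / Real.logb 2 N * (N : ℝ) ^ n :=
    le_trans (sum_le_sum fun w _ => sub_le_sub_left (logb_minNorm_le hN w) _) (sum_defect_le hN)
  rw [sum_sub_distrib, sum_const, card_univ, nsmul_eq_mul] at h1
  simp only [Fintype.card_fun, Fintype.card_fin, Nat.cast_pow] at h1
  nlinarith

theorem average_upper_aux {N n : ℕ} (hN : 2 ≤ N) (c : ℝ)
    (h : ∀ w : Fin n → Fin N, complexity N n w ≤ Real.logb N c + n -
      Real.logb N (minNorm (N ^ n) (wordValue w))) :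
    average N n ≤ (n : ℝ) / 2 + 3 / Real.logb 2 N + Real.logb N c := by
  have hN0 : (0 : ℝ) < N := by exact_mod_cast (by omega : 0 < N)
  rw [average, div_le_iff₀ (by positivity)]
  have h1 : ∑ w : Fin n → Fin N, (complexity N n w - (Real.logb N c + (n : ℝ) / 2)) ≤
      3 / Real.logb 2 N * (N : ℝ) ^ n :=
    le_trans (sum_le_sum fun w _ => by have := h w; linarith) (sum_defect_le hN)
  rw [sum_sub_distrib, sum_const, card_univ, nsmul_eq_mul] at h1
  simp only [Fintype.card_fun, Fintype.card_fin, Nat.cast_pow] at h1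
  nlinarith

theorem average_upper {N n : ℕ} (hN : 2 ≤ N) :
    average N n ≤ (n : ℝ) / 2 + 3 / Real.logb 2 N + Real.logb N (N + 2) :=
  average_upper_aux hN _ (complexity_le_general hN)

theorem average_upper_primePow {N n : ℕ} (hN : IsPrimePow N) :
    average N n ≤ (n : ℝ) / 2 + 4 / Real.logb 2 N := by
  have h1 := average_upper_aux hN.two_le 2 (complexity_le_primePow (n := n) hN)
  have hN1 : (1 : ℝ) < N := by exact_mod_cast (hN.one_lt)
  have h2 : Real.logb N 2 = 1 / Real.logb 2 N := by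
    rw [Real.logb, Real.logb]
    have : Real.log 2 ≠ 0 := (Real.log_pos (by norm_num)).ne'
    have : Real.log N ≠ 0 := (Real.log_pos hN1).ne'
    field_simp
  rw [h2] at h1
  have h3 : (4 : ℝ) / Real.logb 2 N = 3 / Real.logb 2 N + 1 / Real.logb 2 N := by ring
  linarith

/-- Uniformly in `N` and `n`, the average differs from `n / 2` by at most `5`. -/
theorem abs_average_sub_le {N n : ℕ} (hN : 2 ≤ N) : |average N n - (n : ℝ) / 2| ≤ 5 := by
  have hN1 : (1 : ℝ) < N := by exact_mod_cast (by omega : 1 < N)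
  have hN2 : (2 : ℝ) ≤ N := by exact_mod_cast hN
  have hlog : 1 ≤ Real.logb 2 N := by
    rw [Real.le_logb_iff_rpow_le (by norm_num) (by linarith), Real.rpow_one]
    exact hN2
  have h1 : 3 / Real.logb 2 N ≤ 3 := by
    rw [div_le_iff₀ (by linarith)]
    linarith
  have h2 : Real.logb N (N + 2) ≤ 2 := by
    rw [Real.logb_le_iff_le_rpow hN1 (by linarith)]
    norm_num
    nlinarith
  have h3 := average_lower (n := n) hN
  have h4 := average_upper (n := n) hN
  rw [abs_le]
  constructor <;> linarith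

end Pool.Agent.W964.Nadic
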